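import Pool.Agent.H482R3.EA.Stm

set_option autoImplicit false
set_option linter.unusedSectionVars false

/-! Project EA, task ACTA: trivial words act trivially. -/

namespace Pool.Agent.H689R.EA.ACTA

open Pool.Agent.H482R3.EA

section
variable {V Wt : Type} [DecidableEq V] [DecidableEq Wt] (c : V ⊕ Wt → V ⊕ Wt → ℕ)
  (h : SysOK c) (A : Act (sysEA c h))

noncomputable def actV (ω : A.Ω) (g : EA (cW c)) (y : EA (cV c)) : A.Ω :=
  A.act ω (Sum.inl g : LnEA c) y

noncomputable def actL (ω : A.Ω)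
    (q : Σ i : LIdx c, EA (cW c) ⧸ Subgroup.zpowers (gen (cW c) i.1.2))
    (y : FreeGroup (Fin (c (.inl q.1.1.1) (.inr q.1.1.2)))) : A.Ω :=
  A.act ω (Sum.inr q : LnEA c) y

lemma actV_mul (ω : A.Ω) (g : EA (cW c)) (y y' : EA (cV c)) :
    actV c h A (actV c h A ω g y) g y' = actV c h A ω g (y * y') :=
  A.act_mul ω (Sum.inl g : LnEA c) y y'

lemma actV_one (ω : A.Ω) (g : EA (cW c)) : actV c h A ω g 1 = ω :=
  A.act_one ω (Sum.inl g : LnEA c)

lemma actL_mul (ω : A.Ω) (q : Σ i : LIdx c, EA (cW c) ⧸ Subgroup.zpowers (gen (cW c) i.1.2))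
    (y y' : FreeGroup (Fin (c (.inl q.1.1.1) (.inr q.1.1.2)))) :
    actL c h A (actL c h A ω q y) q y' = actL c h A ω q (y * y') :=
  A.act_mul ω (Sum.inr q : LnEA c) y y'

lemma actL_one (ω : A.Ω) (q : Σ i : LIdx c, EA (cW c) ⧸ Subgroup.zpowers (gen (cW c) i.1.2)) :
    actL c h A ω q 1 = ω :=
  A.act_one ω (Sum.inr q : LnEA c)

lemma act_pt (ω : A.Ω) (v : V) (w : Wt) (hc : c (.inl v) (.inr w) ≠ 0)
    (C : EA (cW c) ⧸ Subgroup.zpowers (gen (cW c) w)) (g : EA (cW c))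
    (hg : (QuotientGroup.mk g : EA (cW c) ⧸ Subgroup.zpowers (gen (cW c) w)) = C) :
    actV c h A ω g (gen (cV c) v) =
      actL c h A ω ⟨(⟨(v, w), hc⟩ : LIdx c), C⟩
        (xx (c (.inl v) (.inr w)) (exg c w ((C.out : EA (cW c))⁻¹ * g))) := by
  have := A.act_pt ω (Sum.inl g : LnEA c) (Sum.inr ⟨(⟨(v, w), hc⟩ : LIdx c), C⟩ : LnEA c)
    ((g, v) : PEA c) 1 rfl ⟨rfl, hg⟩
  rw [zpow_one, zpow_one] at this
  exact this

lemma step_inl_true (v : V) (x : A.Ω × EA (cW c)) :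
    stepA c h A x (.inl v, true) = (actV c h A x.1 x.2 (gen (cV c) v), x.2) := rfl

lemma step_inl_false (v : V) (x : A.Ω × EA (cW c)) :
    stepA c h A x (.inl v, false) = (actV c h A x.1 x.2 (gen (cV c) v)⁻¹, x.2) := rfl

lemma step_inr_true (w : Wt) (x : A.Ω × EA (cW c)) :
    stepA c h A x (.inr w, true) = (x.1, x.2 * gen (cW c) w) := rfl

lemma step_inr_false (w : Wt) (x : A.Ω × EA (cW c)) :
    stepA c h A x (.inr w, false) = (x.1, x.2 * (gen (cW c) w)⁻¹) := rfl

/-- the permutation of a positive letter -/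
noncomputable def pos (s : V ⊕ Wt) : Equiv.Perm (A.Ω × EA (cW c)) where
  toFun x := stepA c h A x (s, true)
  invFun x := stepA c h A x (s, false)
  left_inv := by
    rintro ⟨ω, g⟩
    rcases s with v | w
    · simp only [step_inl_true, step_inl_false, actV_mul, mul_inv_cancel, actV_one]
    · simp only [step_inr_true, step_inr_false, mul_inv_cancel_right]
  right_inv := by
    rintro ⟨ω, g⟩
    rcases s with v | w
    · simp only [step_inl_true, step_inl_false, actV_mul, inv_mul_cancel, actV_one]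
    · simp only [step_inr_true, step_inr_false, inv_mul_cancel_right]

lemma pos_inl (v : V) (ω : A.Ω) (g : EA (cW c)) :
    pos c h A (.inl v) (ω, g) = (actV c h A ω g (gen (cV c) v), g) := rfl

lemma pos_inr (w : Wt) (ω : A.Ω) (g : EA (cW c)) :
    pos c h A (.inr w) (ω, g) = (ω, g * gen (cW c) w) := rfl

lemma pow_VV (v v' : V) (n : ℕ) : ∀ (ω : A.Ω) (g : EA (cW c)),
    ((pos c h A (.inl v') * pos c h A (.inl v)) ^ n) (ω, g) =
      (actV c h A ω g ((gen (cV c) v * gen (cV c) v') ^ n), g) := by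
  induction n with
  | zero => intro ω g; simp [actV_one]
  | succ n ih =>
    intro ω g
    rw [pow_succ, Equiv.Perm.mul_apply, Equiv.Perm.mul_apply, pos_inl, pos_inl, ih, actV_mul,
      actV_mul, pow_succ', mul_assoc]

lemma pow_WW (w w' : Wt) (n : ℕ) : ∀ (ω : A.Ω) (g : EA (cW c)),
    ((pos c h A (.inr w') * pos c h A (.inr w)) ^ n) (ω, g) =
      (ω, g * (gen (cW c) w * gen (cW c) w') ^ n) := by
  induction n with
  | zero => intro ω g; simp
  | succ n ih =>
    intro ω g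
    rw [pow_succ, Equiv.Perm.mul_apply, Equiv.Perm.mul_apply, pos_inr, pos_inr, ih, pow_succ']
    simp only [mul_assoc]

/-- the product `x_d x_{d+1} ... x_{d+n-1}` -/
noncomputable def PX (k : ℕ) (d : ℤ) (n : ℕ) : FreeGroup (Fin k) :=
  (List.ofFn fun r : Fin n => xx k (d + (r : ℕ))).prod

lemma PX_zero (k : ℕ) (d : ℤ) : PX k d 0 = 1 := by simp [PX]

lemma PX_succ (k : ℕ) (d : ℤ) (n : ℕ) : PX k d (n + 1) = PX k d n * xx k (d + n) := by
  unfold PX
  rw [List.ofFn_succ', List.concat_eq_append, List.prod_append]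
  simp

lemma mk_mul_pow (w : Wt) (g : EA (cW c)) (n : ℕ) :
    (QuotientGroup.mk (g * gen (cW c) w ^ n) : EA (cW c) ⧸ Subgroup.zpowers (gen (cW c) w)) =
      QuotientGroup.mk g := by
  rw [QuotientGroup.eq]
  simp only [mul_inv_rev, inv_mul_cancel_right]
  exact Subgroup.inv_mem _ (Subgroup.pow_mem _ (Subgroup.mem_zpowers _) n)

lemma pow_VW (hG : S_EXG) (v : V) (w : Wt) (hc : c (.inl v) (.inr w) ≠ 0) (n : ℕ)
    (ω : A.Ω) (g : EA (cW c)) :
    ((pos c h A (.inr w) * pos c h A (.inl v)) ^ n) (ω, g) =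
      (actL c h A ω ⟨(⟨(v, w), hc⟩ : LIdx c), QuotientGroup.mk g⟩
        (PX (c (.inl v) (.inr w)) (exg c w (((QuotientGroup.mk g :
          EA (cW c) ⧸ Subgroup.zpowers (gen (cW c) w)).out : EA (cW c))⁻¹ * g)) n),
        g * gen (cW c) w ^ n) := by
  obtain ⟨_, hG2, hG3⟩ := hG V Wt inferInstance c w
  induction n with
  | zero => 
    rw [pow_zero, PX_zero, actL_one]; simp
  | succ n ih =>
    rw [pow_succ', Equiv.Perm.mul_apply, ih, Equiv.Perm.mul_apply, pos_inl, pos_inr,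
      act_pt c h A _ v w hc (QuotientGroup.mk g) _ (mk_mul_pow c w g n), PX_succ]
    have e : exg c w (((QuotientGroup.mk g :
          EA (cW c) ⧸ Subgroup.zpowers (gen (cW c) w)).out : EA (cW c))⁻¹ *
          (g * gen (cW c) w ^ n)) = exg c w (((QuotientGroup.mk g :
          EA (cW c) ⧸ Subgroup.zpowers (gen (cW c) w)).out : EA (cW c))⁻¹ * g) + n := by
      rw [← mul_assoc, hG2, ← zpow_natCast, hG3, if_pos rfl]
    rw [e]
    refine Prod.ext ?_ ?_
    · exact actL_mul c h A ω ⟨(⟨(v, w), hc⟩ : LIdx c), QuotientGroup.mk g⟩ _ _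
    · show g * gen (cW c) w ^ n * gen (cW c) w = g * gen (cW c) w ^ (n + 1)
      rw [pow_succ, mul_assoc]

lemma pow_WV (hG : S_EXG) (v : V) (w : Wt) (hc : c (.inl v) (.inr w) ≠ 0) (n : ℕ)
    (ω : A.Ω) (g : EA (cW c)) :
    ((pos c h A (.inl v) * pos c h A (.inr w)) ^ n) (ω, g) =
      (actL c h A ω ⟨(⟨(v, w), hc⟩ : LIdx c), QuotientGroup.mk g⟩
        (PX (c (.inl v) (.inr w)) (exg c w (((QuotientGroup.mk g :
          EA (cW c) ⧸ Subgroup.zpowers (gen (cW c) w)).out : EA (cW c))⁻¹ * g) + 1) n),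
        g * gen (cW c) w ^ n) := by
  obtain ⟨_, hG2, hG3⟩ := hG V Wt inferInstance c w
  induction n with
  | zero => 
    rw [pow_zero, PX_zero, actL_one]; simp
  | succ n ih =>
    rw [pow_succ', Equiv.Perm.mul_apply, ih, Equiv.Perm.mul_apply, pos_inr, pos_inl]
    have e2 : g * gen (cW c) w ^ n * gen (cW c) w = g * gen (cW c) w ^ (n + 1) := by
      rw [pow_succ, mul_assoc]
    rw [e2, act_pt c h A _ v w hc (QuotientGroup.mk g) _ (mk_mul_pow c w g (n + 1)), PX_succ]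
    have e : exg c w (((QuotientGroup.mk g :
          EA (cW c) ⧸ Subgroup.zpowers (gen (cW c) w)).out : EA (cW c))⁻¹ *
          (g * gen (cW c) w ^ (n + 1))) = exg c w (((QuotientGroup.mk g :
          EA (cW c) ⧸ Subgroup.zpowers (gen (cW c) w)).out : EA (cW c))⁻¹ * g) + 1 + n := by
      rw [← mul_assoc, hG2, ← zpow_natCast, hG3, if_pos rfl]
      push_cast
      ring
    rw [e]
    refine Prod.ext ?_ rfl
    exact actL_mul c h A ω ⟨(⟨(v, w), hc⟩ : LIdx c), QuotientGroup.mk g⟩ _ _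

lemma PX_full (hX : S_XX) (k : ℕ) (hk : 0 < k) (d : ℤ) : PX k d k = PP k :=
  (hX k hk).2.1 d

lemma rel_VW (hX : S_XX) (hG : S_EXG) (v : V) (w : Wt) (hc : c (.inl v) (.inr w) ≠ 0) :
    (pos c h A (.inr w) * pos c h A (.inl v)) ^ (c (.inl v) (.inr w)) =
      (pos c h A (.inl v) * pos c h A (.inr w)) ^ (c (.inl v) (.inr w)) := by
  ext1 ⟨ω, g⟩
  rw [pow_VW c h A hG v w hc, pow_WV c h A hG v w hc, PX_full hX _ (Nat.pos_of_ne_zero hc),
    PX_full hX _ (Nat.pos_of_ne_zero hc)]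

lemma gen_rel {S : Type} (c : S → S → ℕ) (s t : S) (hst : s ≠ t) (hc : c s t ≠ 0) :
    (gen c s * gen c t) ^ (c s t) = (gen c t * gen c s) ^ (c s t) := by
  have h1 : (PresentedGroup.mk (rels c)) ((FreeGroup.of s * FreeGroup.of t) ^ (c s t) *
      ((FreeGroup.of t * FreeGroup.of s) ^ (c s t))⁻¹) = 1 := by
    apply (QuotientGroup.eq_one_iff _).2
    exact Subgroup.subset_normalClosure ⟨s, t, hst, hc, rfl⟩
  rw [map_mul, map_inv, map_pow, map_pow, map_mul, map_mul, mul_inv_eq_one] at h1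
  exact h1

lemma rel_all (hX : S_XX) (hG : S_EXG) (hS : Symm c) (s t : V ⊕ Wt) (hst : s ≠ t)
    (hc : c s t ≠ 0) :
    (pos c h A t * pos c h A s) ^ (c s t) = (pos c h A s * pos c h A t) ^ (c s t) := by
  rcases s with v | w <;> rcases t with v' | w'
  · ext1 ⟨ω, g⟩
    rw [pow_VV, pow_VV]
    have := gen_rel (cV c) v v' (fun e => hst (by rw [e])) hc
    rw [show c (Sum.inl v) (Sum.inl v') = cV c v v' from rfl, this]
  · exact rel_VW c h A hX hG v w' hc
  · have hc' : c (.inl v') (.inr w) ≠ 0 := by rw [hS]; exact hc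
    have := rel_VW c h A hX hG v' w hc'
    rw [hS (Sum.inl v') (Sum.inr w)] at this
    exact this.symm
  · ext1 ⟨ω, g⟩
    rw [pow_WW, pow_WW]
    have := gen_rel (cW c) w w' (fun e => hst (by rw [e])) hc
    rw [show c (Sum.inr w) (Sum.inr w') = cW c w w' from rfl, this]

noncomputable def fO (s : V ⊕ Wt) : (Equiv.Perm (A.Ω × EA (cW c)))ᵐᵒᵖ :=
  MulOpposite.op (pos c h A s)

lemma fO_rel (hX : S_XX) (hG : S_EXG) (hS : Symm c) :
    ∀ r ∈ rels c, FreeGroup.lift (fO c h A) r = 1 := by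
  rintro r ⟨s, t, hst, hc, rfl⟩
  rw [map_mul, map_inv, map_pow, map_pow, map_mul, map_mul, FreeGroup.lift_apply_of,
    FreeGroup.lift_apply_of, mul_inv_eq_one]
  unfold fO
  rw [← MulOpposite.op_mul, ← MulOpposite.op_mul, ← MulOpposite.op_pow, ← MulOpposite.op_pow,
    rel_all c h A hX hG hS s t hst hc]

lemma run_eq (u : W (V ⊕ Wt)) : ∀ x : A.Ω × EA (cW c),
    runA c h A u x = (MulOpposite.unop (ev (fO c h A) u)) x := by
  induction u with
  | nil => intro x; simp [runA, ev]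
  | cons a u ih =>
    intro x
    have e1 : runA c h A (a :: u) x = runA c h A u (stepA c h A x a) := rfl
    have e2 : ev (fO c h A) (a :: u) =
        (if a.2 then fO c h A a.1 else (fO c h A a.1)⁻¹) * ev (fO c h A) u := by
      simp [ev]
    rw [e1, ih, e2, MulOpposite.unop_mul, Equiv.Perm.mul_apply]
    congr 1
    obtain ⟨s, b⟩ := a
    cases b
    · rfl
    · rfl

end

theorem t_ACTA (hX : S_XX) (hG : S_EXG) : S_ACTA := by
  intro V Wt _ _ c hS _ h A u hu x
  have hL := PresentedGroup.toGroup (f := fO c h A) (rels := rels c) (fO_rel c h A hX hG hS)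
  let ψ : EA c →* (Equiv.Perm (A.Ω × EA (cW c)))ᵐᵒᵖ :=
    PresentedGroup.toGroup (f := fO c h A) (rels := rels c) (fO_rel c h A hX hG hS)
  have hgen : ∀ s, ψ (gen c s) = fO c h A s := fun s => PresentedGroup.toGroup.of _
  have hev : ∀ u : W (V ⊕ Wt), ψ (ev (gen c) u) = ev (fO c h A) u := by
    intro u
    unfold ev
    rw [map_list_prod, List.map_map]
    congr 1
    apply List.map_congr_left
    rintro ⟨s, b⟩ _
    cases b <;> simp [hgen]
  rw [run_eq, ← hev u, show ev (gen c) u = 1 from hu, map_one]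
  rfl

end Pool.Agent.H689R.EA.ACTA
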